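import Pool.Agent.Helper64.MH.Defs

/-! MH part GEN: heights in general position. -/

noncomputable section

namespace MH.Helper9

open Matrix

theorem gen_thm : MH.S_GEN := by
  classical
  intro τ _ d v
  -- the coefficient vectors of the dependences
  let D : Type := {U : Set τ // ∃ μ : τ → ℝ, μ ≠ 0 ∧ (∀ t, t ∉ U → μ t = 0) ∧ ∑ t, μ t • v t = 0}
  let m : D → τ → ℝ := fun U => Classical.choose U.2
  have hm : ∀ U : D, m U ≠ 0 ∧ (∀ t, t ∉ U.1 → m U t = 0) ∧ ∑ t, m U t • v t = 0 :=
    fun U => Classical.choose_spec U.2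
  let f : D → Module.Dual ℝ (τ → ℝ) := fun U => ∑ t, m U t • LinearMap.proj t
  have hf : ∀ (U : D) (h : τ → ℝ), f U h = ∑ t, m U t * h t := by
    intro U h
    simp [f, LinearMap.sum_apply]
  obtain ⟨h, hh⟩ := Module.Dual.exists_forall_ne_zero_of_forall_exists f (by
    intro U
    obtain ⟨t, ht⟩ : ∃ t, m U t ≠ 0 := by
      by_contra hc
      push Not at hc
      exact (hm U).1 (funext hc)
    refine ⟨Pi.single t 1, ?_⟩
    rw [hf, Finset.sum_eq_single t]
    · simpa using ht
    · intro b _ hb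
      simp [Pi.single_apply, hb]
    · intro h
      exact absurd (Finset.mem_univ t) h)
  refine ⟨h, fun q => ?_⟩
  by_contra hdep
  rw [Fintype.linearIndependent_iff] at hdep
  push Not at hdep
  obtain ⟨g, hg, i, hi⟩ := hdep
  let μ : τ → ℝ := fun t => if ht : q ⬝ᵥ v t = h t then g ⟨t, ht⟩ else 0
  have hsum : ∑ t, μ t • v t = 0 := by
    rw [← hg]
    rw [← Finset.sum_subset (Finset.subset_univ (Finset.univ.filter fun t => q ⬝ᵥ v t = h t))]
    · rw [← Finset.sum_subtype_eq_sum_filter]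
      rw [Finset.subtype_univ]
      apply Finset.sum_congr rfl
      intro t _
      simp only [μ]
      rw [dif_pos t.2]
    · intro t _ ht
      simp only [Finset.mem_filter, Finset.mem_univ, true_and] at ht
      simp [μ, ht]
  have hU : ∃ μ : τ → ℝ, μ ≠ 0 ∧ (∀ t, t ∉ {t | q ⬝ᵥ v t = h t} → μ t = 0) ∧
      ∑ t, μ t • v t = 0 := by
    refine ⟨μ, ?_, ?_, hsum⟩
    · intro h0
      have := congrFun h0 i.1
      simp only [μ, Pi.zero_apply] at this
      rw [dif_pos i.2] at this
      exact hi this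
    · intro t ht
      simp only [Set.mem_setOf_eq] at ht
      simp [μ, ht]
  let U : D := ⟨{t | q ⬝ᵥ v t = h t}, hU⟩
  apply hh U
  rw [hf]
  have h1 : ∀ t, m U t * h t = m U t * (q ⬝ᵥ v t) := by
    intro t
    by_cases ht : q ⬝ᵥ v t = h t
    · rw [ht]
    · rw [(hm U).2.1 t ht]
      simp
  rw [Finset.sum_congr rfl (fun t _ => h1 t)]
  have h2 : ∑ t, m U t * (q ⬝ᵥ v t) = q ⬝ᵥ (∑ t, m U t • v t) := by
    rw [dotProduct_sum]
    simp [dotProduct_smul]
  rw [h2, (hm U).2.2]
  simp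

end MH.Helper9
end
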