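import Pool.Agent.Helper64.MH.Defs

/-! MH part UPK: the inequality for up-sets. -/

noncomputable section

namespace MH.Helper9

open Matrix MeasureTheory
open scoped ENNReal

theorem symm_cons {k : ℕ} (p : ℝ × (Fin k → ℝ)) :
    (MeasurableEquiv.piFinSuccAbove (fun _ : Fin (k + 1) => ℝ) 0).symm p =
      (Fin.cons p.1 p.2 : Fin (k + 1) → ℝ) := by
  have : (MeasurableEquiv.piFinSuccAbove (fun _ : Fin (k + 1) => ℝ) 0).symm p =
      (Fin.insertNth 0 p.1 p.2 : Fin (k + 1) → ℝ) := rfl
  rw [this, Fin.insertNth_zero']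

/-- splitting off the first coordinate -/
theorem lint_cons {k : ℕ} (F : (Fin (k + 1) → ℝ) → ℝ≥0∞) (hF : Measurable F) :
    ∫⁻ x, F x = ∫⁻ a : ℝ, ∫⁻ y : Fin k → ℝ, F (Fin.cons a y) := by
  have h := (volume_preserving_piFinSuccAbove (fun _ : Fin (k + 1) => ℝ) 0).symm
  rw [← h.lintegral_comp hF]
  rw [Measure.volume_eq_prod, lintegral_prod]
  · simp only [symm_cons]
  · exact (hF.comp h.measurable).aemeasurable

theorem cons_meas {k : ℕ} : Measurable (fun p : ℝ × (Fin k → ℝ) => (Fin.cons p.1 p.2 : Fin (k + 1) → ℝ)) := by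
  have h := (volume_preserving_piFinSuccAbove (fun _ : Fin (k + 1) => ℝ) 0).symm.measurable
  have h2 : (fun p : ℝ × (Fin k → ℝ) => (Fin.cons p.1 p.2 : Fin (k + 1) → ℝ)) =
      ⇑(MeasurableEquiv.piFinSuccAbove (fun _ : Fin (k + 1) => ℝ) 0).symm := by
    funext p
    rw [symm_cons]
  rw [h2]
  exact h

theorem sum_exp (a s : ℝ) : ENNReal.ofReal (Real.exp (-(a + s))) =
    ENNReal.ofReal (Real.exp (-a)) * ENNReal.ofReal (Real.exp (-s)) := by
  rw [← ENNReal.ofReal_mul (Real.exp_pos _).le, ← Real.exp_add]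
  congr 2
  ring

theorem upk_fin (h1 : MH.S_UP1) : ∀ (k : ℕ) (g : (Fin k → ℝ) → ℝ≥0∞), Measurable g → Monotone g →
    4 ^ k * ∫⁻ x, g x ^ 4 * ENNReal.ofReal (Real.exp (-(4 * ∑ i, x i))) ≤
      (∫⁻ x, g x * ENNReal.ofReal (Real.exp (-(∑ i, x i)))) ^ 4 := by
  intro k
  induction k with
  | zero =>
    intro g _ _
    have hv : (volume : Measure (Fin 0 → ℝ)) = Measure.dirac default := by
      rw [MeasureTheory.volume_pi]
      exact Measure.pi_of_empty _ _
    rw [hv, lintegral_dirac, lintegral_dirac]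
    simp
  | succ k ih =>
    intro g hg hmono
    have hs : Measurable (fun x : Fin (k + 1) → ℝ => ∑ i, x i) :=
      Finset.measurable_sum _ (fun i _ => measurable_pi_apply i)
    have hsk : Measurable (fun x : Fin k → ℝ => ∑ i, x i) :=
      Finset.measurable_sum _ (fun i _ => measurable_pi_apply i)
    have hm4 : Measurable (fun x : Fin (k + 1) → ℝ =>
        g x ^ 4 * ENNReal.ofReal (Real.exp (-(4 * ∑ i, x i)))) :=
      (hg.pow_const 4).mul (Real.measurable_exp.comp (hs.const_mul 4).neg).ennreal_ofReal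
    have hm1 : Measurable (fun x : Fin (k + 1) → ℝ =>
        g x * ENNReal.ofReal (Real.exp (-(∑ i, x i)))) :=
      hg.mul (Real.measurable_exp.comp hs.neg).ennreal_ofReal
    rw [lint_cons _ hm4, lint_cons _ hm1]
    -- section functional
    set G : ℝ → ℝ≥0∞ := fun a => ∫⁻ y : Fin k → ℝ, g (Fin.cons a y) *
      ENNReal.ofReal (Real.exp (-(∑ i, y i))) with hG
    have hGmono : Monotone G := by
      intro a b hab
      apply lintegral_mono
      intro y
      have hle : (Fin.cons a y : Fin (k + 1) → ℝ) ≤ Fin.cons b y := by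
        intro i
        refine Fin.cases ?_ (fun j => ?_) i
        · simpa using hab
        · simp
      exact mul_le_mul_left (hmono hle) _
    have hgm : ∀ a : ℝ, Measurable (fun y : Fin k → ℝ => g (Fin.cons a y)) := by
      intro a
      exact hg.comp (cons_meas.comp (measurable_const.prodMk measurable_id))
    have hgmono : ∀ a : ℝ, Monotone (fun y : Fin k → ℝ => g (Fin.cons a y)) := by
      intro a y z hyz
      apply hmono
      intro i
      refine Fin.cases ?_ (fun j => ?_) i
      · simp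
      · simpa using hyz j
    have e1 : ∀ a : ℝ, ∫⁻ y : Fin k → ℝ, g (Fin.cons a y) ^ 4 *
        ENNReal.ofReal (Real.exp (-(4 * ∑ i, (Fin.cons a y : Fin (k + 1) → ℝ) i))) =
        ENNReal.ofReal (Real.exp (-(4 * a))) * ∫⁻ y : Fin k → ℝ, g (Fin.cons a y) ^ 4 *
          ENNReal.ofReal (Real.exp (-(4 * ∑ i, y i))) := by
      intro a
      rw [← lintegral_const_mul]
      · apply lintegral_congr
        intro y
        rw [Fin.sum_univ_succ]
        simp only [Fin.cons_zero, Fin.cons_succ]
        rw [mul_add, sum_exp]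
        ring
      · exact ((hgm a).pow_const 4).mul
          (Real.measurable_exp.comp (hsk.const_mul 4).neg).ennreal_ofReal
    have e2 : ∀ a : ℝ, ∫⁻ y : Fin k → ℝ, g (Fin.cons a y) *
        ENNReal.ofReal (Real.exp (-(∑ i, (Fin.cons a y : Fin (k + 1) → ℝ) i))) =
        G a * ENNReal.ofReal (Real.exp (-a)) := by
      intro a
      rw [mul_comm, hG, ← lintegral_const_mul]
      · apply lintegral_congr
        intro y
        rw [Fin.sum_univ_succ]
        simp only [Fin.cons_zero, Fin.cons_succ]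
        rw [sum_exp]
        ring
      · exact (hgm a).mul (Real.measurable_exp.comp hsk.neg).ennreal_ofReal
    simp_rw [e1, e2]
    calc 4 ^ (k + 1) * ∫⁻ a : ℝ, ENNReal.ofReal (Real.exp (-(4 * a))) *
          ∫⁻ y : Fin k → ℝ, g (Fin.cons a y) ^ 4 * ENNReal.ofReal (Real.exp (-(4 * ∑ i, y i)))
        = 4 * ∫⁻ a : ℝ, ENNReal.ofReal (Real.exp (-(4 * a))) *
          (4 ^ k * ∫⁻ y : Fin k → ℝ, g (Fin.cons a y) ^ 4 *
            ENNReal.ofReal (Real.exp (-(4 * ∑ i, y i)))) := by
          rw [pow_succ, mul_assoc, mul_left_comm, mul_comm (4 ^ k) (∫⁻ _ : ℝ, _)]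
          congr 1
          rw [← lintegral_mul_const' _ _ (by finiteness)]
          apply lintegral_congr
          intro a
          ring
      _ ≤ 4 * ∫⁻ a : ℝ, ENNReal.ofReal (Real.exp (-(4 * a))) * G a ^ 4 := by
          gcongr with a
          exact ih _ (hgm a) (hgmono a)
      _ = 4 * ∫⁻ a : ℝ, G a ^ 4 * ENNReal.ofReal (Real.exp (-(4 * a))) := by
          simp_rw [mul_comm]
      _ ≤ (∫⁻ a : ℝ, G a * ENNReal.ofReal (Real.exp (-a))) ^ 4 := h1 G hGmono

theorem upk_thm (h1 : MH.S_UP1) : MH.S_UPK := by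
  classical
  intro I _ U hU hup
  -- transfer to `Fin k`
  set k := Fintype.card I with hk
  let e : Fin k ≃ I := (Fintype.equivFin I).symm
  have hmp : MeasurePreserving (MeasurableEquiv.piCongrLeft (fun _ : I => ℝ) e) volume volume :=
    volume_measurePreserving_piCongrLeft (fun _ : I => ℝ) e
  have hval : ∀ (x : Fin k → ℝ) (i : Fin k),
      (MeasurableEquiv.piCongrLeft (fun _ : I => ℝ) e x) (e i) = x i := by
    intro x i
    exact Equiv.piCongrLeft_apply_apply (fun _ : I => ℝ) e x i
  have hsum : ∀ x : Fin k → ℝ, ∑ i, (MeasurableEquiv.piCongrLeft (fun _ : I => ℝ) e x) i =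
      ∑ i, x i := by
    intro x
    rw [← Equiv.sum_comp e]
    exact Finset.sum_congr rfl (fun i _ => hval x i)
  set T := MeasurableEquiv.piCongrLeft (fun _ : I => ℝ) e with hT
  have hTm : Measurable (fun x => T x) := T.measurable
  let g : (Fin k → ℝ) → ℝ≥0∞ := (T ⁻¹' U).indicator 1
  have hUm : MeasurableSet (T ⁻¹' U) := hTm hU
  have hg : Measurable g := measurable_one.indicator hUm
  have hgm : Monotone g := by
    intro x y hxy
    by_cases hx : T x ∈ U
    · have hy : T y ∈ U := by
        apply hup _ hx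
        intro i
        obtain ⟨j, rfl⟩ := e.surjective i
        rw [hval, hval]
        exact hxy j
      simp [g, hx, hy]
    · simp [g, hx]
  have key := upk_fin h1 k g hg hgm
  have hsI : Measurable (fun x : I → ℝ => ∑ i, x i) :=
    Finset.measurable_sum _ (fun i _ => measurable_pi_apply i)
  have c4 : ∫⁻ x in U, ENNReal.ofReal (Real.exp (-(4 * ∑ i, x i))) =
      ∫⁻ x, g x ^ 4 * ENNReal.ofReal (Real.exp (-(4 * ∑ i, x i))) := by
    rw [← lintegral_indicator hU, ← hmp.lintegral_comp]
    · apply lintegral_congr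
      intro x
      by_cases hx : T x ∈ U
      · simp [g, hx, hsum]
      · simp [g, hx]
    · exact ((Real.measurable_exp.comp (hsI.const_mul 4).neg).ennreal_ofReal).indicator hU
  have c1 : ∫⁻ x in U, ENNReal.ofReal (Real.exp (-(∑ i, x i))) =
      ∫⁻ x, g x * ENNReal.ofReal (Real.exp (-(∑ i, x i))) := by
    rw [← lintegral_indicator hU, ← hmp.lintegral_comp]
    · apply lintegral_congr
      intro x
      by_cases hx : T x ∈ U
      · simp [g, hx, hsum]
      · simp [g, hx]
    · exact ((Real.measurable_exp.comp hsI.neg).ennreal_ofReal).indicator hU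
  rw [c4, c1]
  exact key

end MH.Helper9
end
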